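import Pool.Agent.Helper76.TC.Goals
import Pool.Agent.Helper33.Del.BddSurj

/-!
Project TC (MP_ccd65d_gt), packet PL: two lines of different directions in the plane meet.
-/

set_option autoImplicit false

namespace Pool.Agent.Helper78.TC.PL

open Pool.Agent.Helper76.TC Pool.Agent.Helper50.CT

theorem bdd (k : Fin 2 → ℤ) (γ : ℝ → (Fin 2 → ℝ)) (hγ : Continuous γ)
    (hp : ∀ t, γ (t + 1) = rv k + γ t) (i : Fin 2) :
    ∃ B : ℝ, ∀ t, |γ t i - t * k i| ≤ B := by
  have hc : Continuous (fun t => γ t i - t * k i) :=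
    ((continuous_apply i).comp hγ).sub (continuous_id.mul continuous_const)
  have hper : Function.Periodic (fun t => γ t i - t * k i) 1 := by
    intro t
    simp only [hp t, Pi.add_apply, rv]
    ring
  have hcomp := hper.compact_of_continuous one_ne_zero hc
  obtain ⟨B, hB⟩ := hcomp.isBounded.exists_norm_le
  exact ⟨B, fun t => by simpa using hB _ ⟨t, rfl⟩⟩

theorem t : S_PL := by
  intro k k' hD γ γ' hγ hγ' hp hp'
  set D : ℝ := (k 0 : ℝ) * k' 1 - k 1 * k' 0 with hDdef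
  have hD' : D ≠ 0 := by
    rw [hDdef]; exact_mod_cast hD
  obtain ⟨B0, h0⟩ := bdd k γ hγ hp 0
  obtain ⟨B1, h1⟩ := bdd k γ hγ hp 1
  obtain ⟨B0', h0'⟩ := bdd k' γ' hγ' hp' 0
  obtain ⟨B1', h1'⟩ := bdd k' γ' hγ' hp' 1
  set φ : EuclideanSpace ℝ (Fin 2) → EuclideanSpace ℝ (Fin 2) := fun q =>
    !₂[((γ (q 0) 0 - γ' (q 1) 0) * k' 1 - (γ (q 0) 1 - γ' (q 1) 1) * k' 0) / D,
      ((γ (q 0) 0 - γ' (q 1) 0) * k 1 - (γ (q 0) 1 - γ' (q 1) 1) * k 0) / D] with hφ
  have hq : ∀ i : Fin 2, Continuous (fun q : EuclideanSpace ℝ (Fin 2) => q i) := fun i => by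
    fun_prop
  have hcφ : Continuous φ := by
    rw [hφ]
    have a : ∀ i j : Fin 2, Continuous (fun q : EuclideanSpace ℝ (Fin 2) => γ (q i) j) :=
      fun i j => (continuous_apply j).comp (hγ.comp (hq i))
    have b : ∀ i j : Fin 2, Continuous (fun q : EuclideanSpace ℝ (Fin 2) => γ' (q i) j) :=
      fun i j => (continuous_apply j).comp (hγ'.comp (hq i))
    refine (PiLp.continuous_toLp 2 _).comp (continuous_pi fun i => ?_)
    fin_cases i
    · exact ((((a 0 0).sub (b 1 0)).mul continuous_const).sub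
        (((a 0 1).sub (b 1 1)).mul continuous_const)).div_const D
    · exact ((((a 0 0).sub (b 1 0)).mul continuous_const).sub
        (((a 0 1).sub (b 1 1)).mul continuous_const)).div_const D
  have key : ∀ q : EuclideanSpace ℝ (Fin 2), ‖φ q - q‖ ≤
      ((B0 + B0') * |(k' 1 : ℝ)| + (B1 + B1') * |(k' 0 : ℝ)|) / |D| +
      ((B0 + B0') * |(k 1 : ℝ)| + (B1 + B1') * |(k 0 : ℝ)|) / |D| := by
    intro q
    set x := γ (q 0) 0 - q 0 * k 0 with hx
    set y := γ (q 0) 1 - q 0 * k 1 with hy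
    set x' := γ' (q 1) 0 - q 1 * k' 0 with hx'
    set y' := γ' (q 1) 1 - q 1 * k' 1 with hy'
    have hx0 : |x| ≤ B0 := h0 _
    have hy0 : |y| ≤ B1 := h1 _
    have hx0' : |x'| ≤ B0' := h0' _
    have hy0' : |y'| ≤ B1' := h1' _
    have e0 : (φ q - q) 0 = ((x - x') * k' 1 - (y - y') * k' 0) / D := by
      simp only [hφ, PiLp.sub_apply, PiLp.toLp_apply, Matrix.cons_val_zero]
      rw [eq_div_iff hD', sub_mul, div_mul_cancel₀ _ hD', hx, hy, hx', hy', hDdef]
      ring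
    have e1 : (φ q - q) 1 = ((x - x') * k 1 - (y - y') * k 0) / D := by
      simp only [hφ, PiLp.sub_apply, PiLp.toLp_apply, Matrix.cons_val_one, Matrix.cons_val_fin_one]
      rw [eq_div_iff hD', sub_mul, div_mul_cancel₀ _ hD', hx, hy, hx', hy', hDdef]
      ring
    have n1 : ‖φ q - q‖ ≤ |(φ q - q) 0| + |(φ q - q) 1| := by
      rw [EuclideanSpace.norm_eq, Fin.sum_univ_two]
      rw [Real.sqrt_le_left (by positivity)]
      simp only [Real.norm_eq_abs]
      nlinarith [abs_nonneg ((φ q - q) 0), abs_nonneg ((φ q - q) 1)]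
    have hab : ∀ s t s' t' S T S' T' u v : ℝ, |s| ≤ S → |t| ≤ T → |s'| ≤ S' → |t'| ≤ T' →
        |((s - s') * u - (t - t') * v) / D| ≤ ((S + S') * |u| + (T + T') * |v|) / |D| := by
      intro s t s' t' S T S' T' u v hs ht hs' ht'
      rw [abs_div]
      apply div_le_div_of_nonneg_right _ (abs_nonneg D)
      have a1 : |(s - s') * u - (t - t') * v| ≤ |(s - s') * u| + |(t - t') * v| := abs_sub _ _
      have a2 : |s - s'| ≤ |s| + |s'| := abs_sub _ _
      have a3 : |t - t'| ≤ |t| + |t'| := abs_sub _ _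
      rw [abs_mul, abs_mul] at a1
      have a4 : |s - s'| * |u| ≤ (S + S') * |u| :=
        mul_le_mul_of_nonneg_right (by linarith) (abs_nonneg u)
      have a5 : |t - t'| * |v| ≤ (T + T') * |v| :=
        mul_le_mul_of_nonneg_right (by linarith) (abs_nonneg v)
      linarith
    rw [e0, e1] at n1
    have b0 := hab x y x' y' B0 B1 B0' B1' (k' 1) (k' 0) hx0 hy0 hx0' hy0'
    have b1 := hab x y x' y' B0 B1 B0' B1' (k 1) (k 0) hx0 hy0 hx0' hy0'
    linarith
  obtain ⟨q, hq0⟩ := Pool.Agent.Helper33.Del.bddSurj φ _ hcφ key 0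
  have c0 : (φ q) 0 = 0 := by rw [hq0]; rfl
  have c1 : (φ q) 1 = 0 := by rw [hq0]; rfl
  simp only [hφ, PiLp.toLp_apply, Matrix.cons_val_zero] at c0
  simp only [hφ, PiLp.toLp_apply, Matrix.cons_val_one, Matrix.cons_val_fin_one] at c1
  rw [div_eq_zero_iff, or_iff_left hD'] at c0 c1
  refine ⟨q 0, q 1, ?_⟩
  have d0 : (γ (q 0) 0 - γ' (q 1) 0) * D = 0 := by
    rw [hDdef]; linear_combination (k 0 : ℝ) * c0 - (k' 0 : ℝ) * c1
  have d1 : (γ (q 0) 1 - γ' (q 1) 1) * D = 0 := by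
    rw [hDdef]; linear_combination (k 1 : ℝ) * c0 - (k' 1 : ℝ) * c1
  have f0 := (mul_eq_zero.mp d0).resolve_right hD'
  have f1 := (mul_eq_zero.mp d1).resolve_right hD'
  funext i
  fin_cases i
  · exact sub_eq_zero.mp f0
  · exact sub_eq_zero.mp f1

end Pool.Agent.Helper78.TC.PL
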